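import Pool.Agent.Helper45.CF.GoalsB

/-!
# Project CF (MP_d97caa_an): SCA

Homomorphisms with scalar values induce `0`.
-/

open scoped ComplexOrder ZeroAtInfty Topology ComplexConjugate
open TopologicalSpace Filter

namespace Pool.Agent.Helper49.CF

open Pool.Agent.Helper34.CAR Pool.Agent.Helper39.CR Pool.Agent.Helper39.Uct
  Pool.Agent.Helper39.CarDefs Pool.Agent.Helper45.CF

noncomputable section

section units

variable {I B Z : Type} [Fintype I] [DecidableEq I] [CStarAlgebra B] [TopologicalSpace Z]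
  [CompactSpace Z]

/-- The linear map `b ↦ single i j b`. -/
def mu (i j : I) : B →ₗ[ℂ] Mt I B where
  toFun b := Mt.single i j b
  map_add' x y := by
    refine Mt.ext fun a b => ?_
    rw [Mt.add_apply, Mt.single_apply, Mt.single_apply, Mt.single_apply]
    split_ifs <;> simp
  map_smul' c x := by
    refine Mt.ext fun a b => ?_
    rw [RingHom.id_apply, Mt.smul_apply, Mt.single_apply, Mt.single_apply]
    split_ifs <;> simp

theorem continuous_single (i j : I) : Continuous fun b : B => (Mt.single i j b : Mt I B) :=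
  AddMonoidHomClass.continuous_of_bound (mu i j : B →ₗ[ℂ] Mt I B) 1 fun x => by
    rw [one_mul]
    exact Mt.norm_single_le i j x

/-- The matrix units of `C(Z, Mt I B)` over `C(Z, B)`. -/
def muC (i j : I) : C(Z, B) →ₗ[ℂ] C(Z, Mt I B) where
  toFun f := ⟨fun y => Mt.single i j (f y), (continuous_single i j).comp f.continuous⟩
  map_add' f g := by
    refine ContinuousMap.ext fun y => ?_
    exact (mu i j : B →ₗ[ℂ] Mt I B).map_add (f y) (g y)
  map_smul' c f := by
    refine ContinuousMap.ext fun y => ?_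
    exact (mu i j : B →ₗ[ℂ] Mt I B).map_smul c (f y)

theorem muC_apply (i j : I) (f : C(Z, B)) (y : Z) : muC i j f y = Mt.single i j (f y) := rfl

theorem munitsC : MUnits (muC : I → I → C(Z, B) →ₗ[ℂ] C(Z, Mt I B)) where
  mul i j k a b := ContinuousMap.ext fun y => Mt.single_mul_single i j k (a y) (b y)
  mul0 i j k l a b h := ContinuousMap.ext fun y => Mt.single_mul_single_ne h i l (a y) (b y)
  star i j a := ContinuousMap.ext fun y => Mt.star_single i j (a y)
  inj i j a h := by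
    refine ContinuousMap.ext fun y => ?_
    have h1 : (Mt.single i j (a y) : Mt I B) i j = 0 := by
      have h2 : muC i j a y = (0 : C(Z, Mt I B)) y := by rw [h]
      rw [muC_apply] at h2
      rw [h2]
      rfl
    rw [Mt.single_apply, if_pos ⟨rfl, rfl⟩] at h1
    exact h1
  span x := by
    refine ⟨fun i j => ⟨fun y => x y i j, (continuous_entry i j).comp x.continuous⟩, ?_⟩
    refine ContinuousMap.ext fun y => ?_
    rw [ContinuousMap.sum_apply]
    simp only [ContinuousMap.sum_apply, muC_apply, ContinuousMap.coe_mk]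
    exact Mt.eq_sum_single (x y)

/-- The corner embeddings. -/
def cornC (i : I) : C(Z, B) →⋆ₙₐ[ℂ] C(Z, Mt I B) where
  toFun b := muC i i b
  map_smul' c b := (muC i i : C(Z, B) →ₗ[ℂ] C(Z, Mt I B)).map_smul c b
  map_zero' := (muC i i : C(Z, B) →ₗ[ℂ] C(Z, Mt I B)).map_zero
  map_add' x y := (muC i i : C(Z, B) →ₗ[ℂ] C(Z, Mt I B)).map_add x y
  map_mul' x y := (munitsC.mul i i i x y).symm
  map_star' x := (munitsC.star i i x).symm

theorem cornC_apply (i : I) (b : C(Z, B)) : cornC i b = muC i i b := rfl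

end units

theorem t : Pool.Agent.Helper45.CF.S_SCA := by
  intro T i B S _ _ _ _ ω hT h hh x
  rcases isEmpty_or_nonempty S with hS | hS
  · -- the algebra is zero
    have h0 : h = (0 : ℂ →⋆ₙₐ[ℂ] C(Sphere2, Mt S B)).comp (0 : B →⋆ₙₐ[ℂ] ℂ) := by
      refine DFunLike.ext _ _ fun b => ContinuousMap.ext fun y => Mt.ext fun p q => ?_
      exact hS.elim p
    rw [h0, T.map_comp, T.point i (T.map i (0 : ℂ →⋆ₙₐ[ℂ] C(Sphere2, Mt S B)) x), map_zero]
  · obtain ⟨j⟩ := hS
    let χ : C(Sphere2, Mt S B) →⋆ₙₐ[ℂ] C(Sphere2, Mt S ℂ) :=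
      mapC Sphere2 ((Mt.map ω : Mt S B →⋆ₐ[ℂ] Mt S ℂ) : Mt S B →⋆ₙₐ[ℂ] Mt S ℂ)
    let κ : C(Sphere2, Mt S ℂ) →⋆ₙₐ[ℂ] C(Sphere2, Mt S B) :=
      mapC Sphere2 ((Mt.map (StarAlgHom.ofId ℂ B) : Mt S ℂ →⋆ₐ[ℂ] Mt S B) :
        Mt S ℂ →⋆ₙₐ[ℂ] Mt S B)
    have h1 : h = κ.comp (χ.comp h) := by
      refine DFunLike.ext _ _ fun b => ContinuousMap.ext fun y => Mt.ext fun p q => ?_
      obtain ⟨c, hc⟩ := hh b y p q
      show h b y p q = algebraMap ℂ B (ω (h b y p q))
      rw [hc]
      congr 1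
      exact (AlgHomClass.commutes ω c).symm
    have h2 : T.map i κ x = 0 := by
      have hb : Function.Bijective
          (T.map i (cornC j : C(Sphere2, ℂ) →⋆ₙₐ[ℂ] C(Sphere2, Mt S ℂ))) :=
        T.stable i _ _ S muC munitsC j _ (fun _ => rfl)
      exact hb.1 ((hT i _).trans (hT i _).symm)
    rw [h1, T.map_comp, h2, map_zero]

end

end Pool.Agent.Helper49.CF
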