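import Pool.Agent.Helper55.CF.Goals

/-! Packet ADJ: adjoints of operators of the Weyl algebra. -/

open MeasureTheory Complex
open scoped ContDiff ComplexConjugate

noncomputable section
namespace CF55.PkAdj

open CF55

/-- the derivative of a polynomial function -/
theorem hasFDerivAt_eval (g : MvPolynomial (Fin 5) ℂ) (x : X5) :
    HasFDerivAt (fun x : X5 => MvPolynomial.eval x g)
      (∑ j, MvPolynomial.eval x (MvPolynomial.pderiv j g) •
        (ContinuousLinearMap.proj j : X5 →L[ℂ] ℂ)) x := by
  induction g using MvPolynomial.induction_on with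
  | C a =>
    have h1 : HasFDerivAt (fun _ : X5 => a) (0 : X5 →L[ℂ] ℂ) x := hasFDerivAt_const a x
    have h3 : (fun x : X5 => MvPolynomial.eval x (MvPolynomial.C a)) = fun _ : X5 => a := by
      funext y; simp
    rw [h3]
    refine h1.congr_fderiv ?_
    ext v
    simp
  | add p q hp hq =>
    have h3 : (fun x : X5 => MvPolynomial.eval x (p + q)) =
        (fun x => MvPolynomial.eval x p) + fun x => MvPolynomial.eval x q := by
      funext y; simp
    rw [h3]
    refine (hp.add hq).congr_fderiv ?_
    rw [← Finset.sum_add_distrib]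
    refine Finset.sum_congr rfl fun j _ => ?_
    ext v
    simp [add_mul]
  | mul_X p i hp =>
    have h1 : HasFDerivAt (fun x : X5 => x i) (ContinuousLinearMap.proj i : X5 →L[ℂ] ℂ) x :=
      (ContinuousLinearMap.proj i : X5 →L[ℂ] ℂ).hasFDerivAt
    have h2 := hp.mul h1
    have h3 : (fun x : X5 => MvPolynomial.eval x (p * MvPolynomial.X i)) =
        fun x : X5 => MvPolynomial.eval x p * x i := by
      funext y; simp
    rw [h3]
    refine h2.congr_fderiv ?_
    ext v
    simp only [add_apply, smul_apply,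
      ContinuousLinearMap.proj_apply, smul_eq_mul, sum_apply,
      Derivation.leibniz, MvPolynomial.pderiv_X, map_add, map_mul, smul_eq_mul,
      MvPolynomial.eval_X, add_mul, Finset.sum_add_distrib]
    congr 1
    · rw [Finset.sum_eq_single i]
      · simp
      · intro j _ hj
        simp [Pi.single_apply, Ne.symm hj]
      · intro h; exact absurd (Finset.mem_univ i) h
    · rw [Finset.mul_sum]
      refine Finset.sum_congr rfl fun j _ => by ring

theorem contDiff_eval (g : MvPolynomial (Fin 5) ℂ) :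
    ContDiff ℝ ∞ (fun x : X5 => MvPolynomial.eval x g) := by
  have h : ContDiff ℂ ∞ (fun x : X5 => MvPolynomial.eval x g) := by
    have := AnalyticOnNhd.eval_mvPolynomial (𝕜 := ℂ) (σ := Fin 5) g
    exact (this.contDiff).of_le le_top
  exact h.restrict_scalars ℝ

theorem contDiff_conj {f : X5 → ℂ} (hf : ContDiff ℝ ∞ f) :
    ContDiff ℝ ∞ (fun x => conj (f x)) :=
  (Complex.conjCLE : ℂ ≃L[ℝ] ℂ).contDiff.comp hf

/-- the real derivative of a polynomial function -/
theorem hasFDerivAt_real (g : MvPolynomial (Fin 5) ℂ) (x : X5) :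
    HasFDerivAt (fun x : X5 => MvPolynomial.eval x g)
      ((∑ j, MvPolynomial.eval x (MvPolynomial.pderiv j g) •
        (ContinuousLinearMap.proj j : X5 →L[ℂ] ℂ)).restrictScalars ℝ) x :=
  (hasFDerivAt_eval g x).restrictScalars ℝ

theorem fderiv_eval (g : MvPolynomial (Fin 5) ℂ) (x : X5) (i : Fin 5) (c : ℂ) :
    fderiv ℝ (fun x : X5 => MvPolynomial.eval x g) x (Pi.single i c) =
      c * MvPolynomial.eval x (MvPolynomial.pderiv i g) := by
  rw [(hasFDerivAt_real g x).fderiv]
  simp only [ContinuousLinearMap.coe_restrictScalars', sum_apply,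
    smul_apply, ContinuousLinearMap.proj_apply, smul_eq_mul]
  rw [Finset.sum_eq_single i]
  · simp [mul_comm]
  · intro j _ hj
    simp [Pi.single_apply, hj]
  · intro h; exact absurd (Finset.mem_univ i) h

theorem fderiv_conj_eval (g : MvPolynomial (Fin 5) ℂ) (x : X5) (i : Fin 5) (c : ℂ) :
    fderiv ℝ (fun x : X5 => conj (MvPolynomial.eval x g)) x (Pi.single i c) =
      conj c * conj (MvPolynomial.eval x (MvPolynomial.pderiv i g)) := by
  have h1 : HasFDerivAt (fun x : X5 => conj (MvPolynomial.eval x g))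
      (((Complex.conjCLE : ℂ ≃L[ℝ] ℂ) : ℂ →L[ℝ] ℂ).comp
        (fderiv ℝ (fun x : X5 => MvPolynomial.eval x g) x)) x :=
    ((Complex.conjCLE : ℂ ≃L[ℝ] ℂ) : ℂ →L[ℝ] ℂ).hasFDerivAt.comp x
      ((hasFDerivAt_real g x).differentiableAt.hasFDerivAt)
  rw [h1.fderiv, ContinuousLinearMap.comp_apply, fderiv_eval]
  simp

/-- integration by parts in one direction -/
theorem ibp {G ψ : X5 → ℂ} (hG : ContDiff ℝ ∞ G) (hψ : ContDiff ℝ ∞ ψ)
    (hc : HasCompactSupport ψ) (v : X5) :
    ∫ x, G x * fderiv ℝ ψ x v = - ∫ x, fderiv ℝ G x v * ψ x := by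
  have hGc : Continuous G := hG.continuous
  have hψc : Continuous ψ := hψ.continuous
  have hG' : Continuous (fun x => fderiv ℝ G x v) :=
    (hG.continuous_fderiv (by simp)).clm_apply continuous_const
  have hψ' : Continuous (fun x => fderiv ℝ ψ x v) :=
    (hψ.continuous_fderiv (by simp)).clm_apply continuous_const
  have hcψ' : HasCompactSupport (fun x => fderiv ℝ ψ x v) := hc.fderiv_apply (𝕜 := ℝ) v
  refine integral_mul_fderiv_eq_neg_fderiv_mul_of_integrable ?_ ?_ ?_ ?_ ?_
  · exact (hG'.mul hψc).integrable_of_hasCompactSupport hc.mul_left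
  · exact (hGc.mul hψ').integrable_of_hasCompactSupport hcψ'.mul_left
  · exact (hGc.mul hψc).integrable_of_hasCompactSupport hc.mul_left
  · exact fun x _ => (hG.differentiable (by simp)).differentiableAt
  · exact fun x _ => (hψ.differentiable (by simp)).differentiableAt

theorem ibp' (g q : MvPolynomial (Fin 5) ℂ) {ψ : X5 → ℂ} (hψ : ContDiff ℝ ∞ ψ)
    (hc : HasCompactSupport ψ) (i : Fin 5) (c : ℂ) :
    ∫ x, (MvPolynomial.eval x g * conj (MvPolynomial.eval x q)) *
      fderiv ℝ ψ x (Pi.single i c) =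
    - ∫ x, (c * (MvPolynomial.eval x (MvPolynomial.pderiv i g) *
        conj (MvPolynomial.eval x q)) +
      conj c * (MvPolynomial.eval x g *
        conj (MvPolynomial.eval x (MvPolynomial.pderiv i q)))) * ψ x := by
  have hG := contDiff_eval g
  have hH := contDiff_conj (contDiff_eval q)
  rw [ibp (hG.mul hH) hψ hc]
  congr 1
  refine integral_congr_ae (Filter.Eventually.of_forall fun x => ?_)
  simp only
  congr 1
  have h1 : DifferentiableAt ℝ (fun x : X5 => MvPolynomial.eval x g) x :=
    (hG.differentiable (by simp)).differentiableAt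
  have h2 : DifferentiableAt ℝ (fun x : X5 => conj (MvPolynomial.eval x q)) x :=
    (hH.differentiable (by simp)).differentiableAt
  have h3 := (h1.hasFDerivAt.mul h2.hasFDerivAt).fderiv
  have h4 : (fun x : X5 => MvPolynomial.eval x g * conj (MvPolynomial.eval x q)) =
    (fun x => MvPolynomial.eval x g) * (fun x => conj (MvPolynomial.eval x q)) := rfl
  rw [h4, h3]
  simp only [add_apply, smul_apply, smul_eq_mul]
  rw [fderiv_eval, fderiv_conj_eval]
  ring

/-- the adjoint exists -/
def Adj (P : MvPolynomial (Fin 5) ℂ → MvPolynomial (Fin 5) ℂ) : Prop :=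
  ∀ (U : Set X5) (ψ : X5 → ℂ), Test U ψ →
    ∃ ψ' : X5 → ℂ, Test U ψ' ∧ ∀ g q : MvPolynomial (Fin 5) ℂ,
    ∫ x, MvPolynomial.eval x (P g) * conj (MvPolynomial.eval x q) * ψ x =
      ∫ x, MvPolynomial.eval x g * conj (MvPolynomial.eval x q) * ψ' x

theorem adj_mul (i : Fin 5) : Adj (fun g => MvPolynomial.X i * g) := by
  intro U ψ ⟨h1, h2, h3⟩
  refine ⟨fun x => x i * ψ x, ⟨?_, ?_, ?_⟩, fun g q => ?_⟩
  · have : ContDiff ℝ ∞ (fun x : X5 => x i) := contDiff_apply ℝ ℂ i
    exact this.mul h1
  · exact h2.mul_left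
  · exact (tsupport_mul_subset_right).trans h3
  · refine integral_congr_ae (Filter.Eventually.of_forall fun x => ?_)
    simp only [map_mul, MvPolynomial.eval_X]
    ring

theorem adj_pd (i : Fin 5) : Adj (fun g => MvPolynomial.pderiv i g) := by
  intro U ψ ⟨h1, h2, h3⟩
  have hd : ∀ c : ℂ, ContDiff ℝ ∞ (fun x => fderiv ℝ ψ x (Pi.single i c)) := fun c =>
    (h1.fderiv_right (m := ∞) (by simp)).clm_apply contDiff_const
  have hs : ∀ c : ℂ, tsupport (fun x => fderiv ℝ ψ x (Pi.single i c)) ⊆ tsupport ψ :=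
    fun c => tsupport_fderiv_apply_subset ℝ _
  have hcs : ∀ c : ℂ, HasCompactSupport (fun x => fderiv ℝ ψ x (Pi.single i c)) :=
    fun c => h2.fderiv_apply (𝕜 := ℝ) _
  refine ⟨fun x => (-(1 / 2) : ℂ) * (fderiv ℝ ψ x (Pi.single i 1) -
    I * fderiv ℝ ψ x (Pi.single i I)), ⟨?_, ?_, ?_⟩, fun g q => ?_⟩
  · exact contDiff_const.mul ((hd 1).sub (contDiff_const.mul (hd I)))
  · exact ((hcs 1).sub ((hcs I).mul_left)).mul_left
  · refine (tsupport_mul_subset_right).trans ?_
    refine (tsupport_sub _ _).trans (Set.union_subset ((hs 1).trans h3) ?_)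
    exact (tsupport_mul_subset_right).trans ((hs I).trans h3)
  · have e1 := ibp' g q h1 h2 i 1
    have e2 := ibp' g q h1 h2 i I
    have cG := (contDiff_eval g).continuous
    have cG' := (contDiff_eval (MvPolynomial.pderiv i g)).continuous
    have cH := (contDiff_conj (contDiff_eval q)).continuous
    have cH' := (contDiff_conj (contDiff_eval (MvPolynomial.pderiv i q))).continuous
    have i1 : Integrable (fun x => (MvPolynomial.eval x g * conj (MvPolynomial.eval x q)) *
        fderiv ℝ ψ x (Pi.single i 1)) :=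
      ((cG.mul cH).mul (hd 1).continuous).integrable_of_hasCompactSupport (hcs 1).mul_left
    have i2 : Integrable (fun x => (MvPolynomial.eval x g * conj (MvPolynomial.eval x q)) *
        fderiv ℝ ψ x (Pi.single i I)) :=
      ((cG.mul cH).mul (hd I).continuous).integrable_of_hasCompactSupport (hcs I).mul_left
    have j1 : Integrable (fun x => (MvPolynomial.eval x (MvPolynomial.pderiv i g) *
        conj (MvPolynomial.eval x q)) * ψ x) :=
      ((cG'.mul cH).mul h1.continuous).integrable_of_hasCompactSupport h2.mul_left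
    have j2 : Integrable (fun x => (MvPolynomial.eval x g *
        conj (MvPolynomial.eval x (MvPolynomial.pderiv i q))) * ψ x) :=
      ((cG.mul cH').mul h1.continuous).integrable_of_hasCompactSupport h2.mul_left
    have f1 : ∀ c : ℂ, ∫ x, (c * (MvPolynomial.eval x (MvPolynomial.pderiv i g) *
          conj (MvPolynomial.eval x q)) +
        conj c * (MvPolynomial.eval x g *
          conj (MvPolynomial.eval x (MvPolynomial.pderiv i q)))) * ψ x =
        c * (∫ x, (MvPolynomial.eval x (MvPolynomial.pderiv i g) *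
          conj (MvPolynomial.eval x q)) * ψ x) +
        conj c * ∫ x, (MvPolynomial.eval x g *
          conj (MvPolynomial.eval x (MvPolynomial.pderiv i q))) * ψ x := by
      intro c
      rw [← integral_const_mul, ← integral_const_mul,
        ← integral_add (j1.const_mul c) (j2.const_mul (conj c))]
      refine integral_congr_ae (Filter.Eventually.of_forall fun x => ?_)
      simp only
      ring
    rw [f1] at e1 e2
    have e3 : ∫ x, MvPolynomial.eval x g * conj (MvPolynomial.eval x q) *
        ((-(1 / 2) : ℂ) * (fderiv ℝ ψ x (Pi.single i 1) -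
          I * fderiv ℝ ψ x (Pi.single i I))) =
        (-(1 / 2) : ℂ) * (∫ x, (MvPolynomial.eval x g * conj (MvPolynomial.eval x q)) *
          fderiv ℝ ψ x (Pi.single i 1)) + (I / 2) *
        ∫ x, (MvPolynomial.eval x g * conj (MvPolynomial.eval x q)) *
          fderiv ℝ ψ x (Pi.single i I) := by
      rw [← integral_const_mul, ← integral_const_mul,
        ← integral_add (i1.const_mul _) (i2.const_mul _)]
      refine integral_congr_ae (Filter.Eventually.of_forall fun x => ?_)
      simp only
      ring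
    rw [e3, e1, e2]
    simp only [map_one, Complex.conj_I]
    have hI : I * I = -1 := Complex.I_mul_I
    linear_combination ((1 / 2) * (∫ x, (MvPolynomial.eval x (MvPolynomial.pderiv i g) *
          conj (MvPolynomial.eval x q)) * ψ x) - (1 / 2) * ∫ x, (MvPolynomial.eval x g *
          conj (MvPolynomial.eval x (MvPolynomial.pderiv i q))) * ψ x) * hI

theorem adj_const (c : ℂ) : Adj (fun g => c • g) := by
  · intro U ψ ⟨h1, h2, h3⟩
    refine ⟨fun x => c * ψ x, ⟨contDiff_const.mul h1, h2.mul_left,
      (tsupport_mul_subset_right).trans h3⟩, fun g q => ?_⟩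
    refine integral_congr_ae (Filter.Eventually.of_forall fun x => ?_)
    simp only [MvPolynomial.smul_eval]
    ring

theorem adj_add {P Q : MvPolynomial (Fin 5) ℂ → MvPolynomial (Fin 5) ℂ} (hP : Adj P)
    (hQ : Adj Q) : Adj (fun g => P g + Q g) := by
  · intro U ψ hψ
    obtain ⟨ψ1, a1, a2⟩ := hP U ψ hψ
    obtain ⟨ψ2, b1, b2⟩ := hQ U ψ hψ
    refine ⟨fun x => ψ1 x + ψ2 x, ⟨a1.1.add b1.1, a1.2.1.add b1.2.1,
      (tsupport_add _ _).trans (Set.union_subset a1.2.2 b1.2.2)⟩, fun g q => ?_⟩
    have key : ∀ (r : MvPolynomial (Fin 5) ℂ) {φ : X5 → ℂ}, Test U φ → Integrable (fun x =>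
        MvPolynomial.eval x r * conj (MvPolynomial.eval x q) * φ x) := fun r φ hφ =>
      (((contDiff_eval r).continuous.mul (contDiff_conj (contDiff_eval q)).continuous).mul
        hφ.1.continuous).integrable_of_hasCompactSupport hφ.2.1.mul_left
    have e1 : (fun x => MvPolynomial.eval x (P g + Q g) * conj (MvPolynomial.eval x q) * ψ x) =
        fun x => MvPolynomial.eval x (P g) * conj (MvPolynomial.eval x q) * ψ x +
          MvPolynomial.eval x (Q g) * conj (MvPolynomial.eval x q) * ψ x := by
      funext x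
      simp only [map_add]
      ring
    have e2 : (fun x => MvPolynomial.eval x g * conj (MvPolynomial.eval x q) *
          (ψ1 x + ψ2 x)) =
        fun x => MvPolynomial.eval x g * conj (MvPolynomial.eval x q) * ψ1 x +
          MvPolynomial.eval x g * conj (MvPolynomial.eval x q) * ψ2 x := by
      funext x
      ring
    rw [e1, e2, integral_add (key _ hψ) (key _ hψ), integral_add (key _ a1) (key _ b1), a2, b2]

theorem adj_comp {P Q : MvPolynomial (Fin 5) ℂ → MvPolynomial (Fin 5) ℂ} (hP : Adj P)
    (hQ : Adj Q) : Adj (fun g => P (Q g)) := by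
  intro U ψ hψ
  obtain ⟨ψ1, a1, a2⟩ := hP U ψ hψ
  obtain ⟨ψ2, b1, b2⟩ := hQ U ψ1 a1
  exact ⟨ψ2, b1, fun g q => (a2 (Q g) q).trans (b2 g q)⟩

theorem stmtADJ : G_ADJ := by
  intro P hP
  unfold weyl at hP
  change Adj P
  refine Algebra.adjoin_induction
    (p := fun (P : Module.End ℂ (MvPolynomial (Fin 5) ℂ)) _ => Adj P) ?_ ?_ ?_ ?_ hP
  · rintro Q (⟨i, rfl⟩ | ⟨i, rfl⟩)
    · exact adj_mul i
    · exact adj_pd i
  · intro c
    exact adj_const c
  · intro P Q _ _ hP hQ
    exact adj_add hP hQ
  · intro P Q _ _ hP hQ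
    have h := adj_comp hP hQ
    exact h

end CF55.PkAdj
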